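import Pool.Agent.Lib.MP_216314_pr.J.JOcc
import Pool.Agent.Lib.MP_216314_pr.N.CR
import Pool.Agent.Lib.MP_216314_pr.N.CA
import Pool.Agent.Lib.MP_216314_pr.N.E3P
import Pool.Agent.Lib.MP_216314_pr.N.NBase

/-!
# Many disjoint crossings of an annulus are unlikely (van den Berg - Kesten and the decay of the one arm probability)

`occ_prob`: for every `lam` there are `K`, `C` such that `K` disjoint crossings of the annulus with radii `a < b` around any point have probability
at most `C (a / b) ^ lam`, in every finite set of edges.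
-/

set_option autoImplicit false

noncomputable section

namespace FKC

open Finset FKI FKP

theorem AA_prob : ∃ α C : ℝ, 0 < α ∧ 0 < C ∧ ∀ (u : V) (a b : ℕ) (E : Finset Edge), 1 ≤ a → a < b →
    IPC.Pr (1 / 2) E (AA u a b) ≤ C * ((a : ℝ) / b) ^ α := by
  obtain ⟨ε, hε, hRS⟩ := FKN.rsc_half
  obtain ⟨α, hα, h⟩ := FKN.one_decay ε hε
  refine ⟨α, 2 * 2 ^ α, hα, by positivity, fun u a b E ha hab => ?_⟩
  have ha0 : (0 : ℝ) < a := by exact_mod_cast ha
  have hb0 : (0 : ℝ) < b := by
    have : 0 < b := by omega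
    exact_mod_cast this
  have h1 : IPC.Pr (1 / 2) E (AA u a b) ≤ IPC.Pr (1 / 2) E
      (fun ω => ∃ v w : V, FKN.nrm (v - u) ≤ (a + 1 : ℕ) ∧ (b : ℤ) ≤ FKN.nrm (w - u) ∧ Conn (E ∩ an u a b) ω v w) := by
    refine FKN.pq_mono (by norm_num) (by norm_num) ?_
    rintro ω hω ⟨v, w, h2, h3, h4⟩
    refine ⟨v, w, ?_, ?_, ?_⟩
    · have h5 : FKN.nrm (v - u) = sd u v := rfl
      rw [h5, h2]
      push_cast
      exact le_rfl
    · have h5 : FKN.nrm (w - u) = sd u w := rfl
      rw [h5, h3]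
    · unfold Conn at h4 ⊢
      have h5 : ω ∩ (E ∩ an u a b) = ω ∩ an u a b := by
        rw [← inter_assoc, inter_eq_left.2 hω]
      rw [h5]
      exact h4
  have h2 := FKN.pr_cross (q := 1 / 2) (by norm_num) (by norm_num) (H := E) (F := E ∩ an u a b)
    inter_subset_left u (r := a + 1) (R := b) (by omega)
  have h3 := (h (1 / 2) b (by norm_num) (by norm_num) (hRS b) (a + 1) b (by omega) (by omega) le_rfl).1
  have h4 : (((a + 1 : ℕ) : ℝ) / b) ^ α ≤ 2 ^ α * ((a : ℝ) / b) ^ α := by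
    rw [← Real.mul_rpow (by norm_num) (by positivity)]
    refine Real.rpow_le_rpow (by positivity) ?_ hα.le
    rw [← mul_div_assoc]
    refine div_le_div_of_nonneg_right ?_ hb0.le
    have : (1 : ℝ) ≤ a := by exact_mod_cast ha
    push_cast
    linarith
  refine h1.trans (h2.trans (h3.trans ?_))
  rw [mul_assoc]
  exact mul_le_mul_of_nonneg_left h4 (by norm_num)

theorem occ_prob (lam : ℝ) : ∃ (K : ℕ) (C : ℝ), 0 < C ∧ ∀ (u : V) (a b : ℕ) (E : Finset Edge),
    1 ≤ a → a < b →
    IPC.Pr (1 / 2) E (IPC.Occ (List.replicate K (AA u a b))) ≤ C * ((a : ℝ) / b) ^ lam := by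
  obtain ⟨α, C, hα, hC, h⟩ := AA_prob
  obtain ⟨K, hK⟩ := exists_nat_ge (lam / α)
  refine ⟨K, C ^ K, by positivity, fun u a b E ha hab => ?_⟩
  have ha0 : (0 : ℝ) < a := by exact_mod_cast ha
  have hb0 : (0 : ℝ) < b := by
    have : 0 < b := by omega
    exact_mod_cast this
  have hr0 : 0 < (a : ℝ) / b := by positivity
  have hr1 : (a : ℝ) / b ≤ 1 := by
    rw [div_le_one hb0]
    exact_mod_cast hab.le
  have h1 := IPC.bk_list (p := 1 / 2) (by norm_num) le_rfl E (List.replicate K (AA u a b))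
    (fun A hA => by rw [List.eq_of_mem_replicate hA]; exact inc_AA u a b)
  rw [List.map_replicate, List.prod_replicate] at h1
  refine h1.trans ((pow_le_pow_left₀ (IPC.Pr_nonneg (by norm_num) (by norm_num) E _)
    (h u a b E ha hab) K).trans ?_)
  rw [mul_pow]
  refine mul_le_mul_of_nonneg_left ?_ (by positivity)
  rw [← Real.rpow_natCast, ← Real.rpow_mul hr0.le]
  refine Real.rpow_le_rpow_of_exponent_ge hr0 hr1 ?_
  rw [div_le_iff₀ hα] at hK
  linarith

end FKC
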