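import Pool.Agent.Lib.MP_426cf1_co.MenD

/-!
# Walks of bounded multiplicity contain disjoint walks (Menger)

`k` walks from `A` to `B` in any graph such that every vertex is on at most `4` of them: there are `k / 4` vertex disjoint walks from `A` to `B`.
-/

set_option autoImplicit false

namespace FKC

open Finset Pool.Agent.Lib.MP_426cf1_co

theorem pieces_link {V : Type*} [DecidableEq V] (G : SimpleGraph V) (A B : Set V) {k K : ℕ}
    (hK : 4 * K ≤ k) (x y : Fin k → V) (p : ∀ i, G.Walk (x i) (y i)) (hx : ∀ i, x i ∈ A)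
    (hy : ∀ i, y i ∈ B)
    (hm : ∀ v, (univ.filter (fun i : Fin k => v ∈ (p i).support)).card ≤ 4) : Lk G A B K := by
  classical
  set W : Set V := {v | ∃ i, v ∈ (p i).support} with hW
  have hWf : W.Finite := by
    have : W = ⋃ i : Fin k, {v | v ∈ (p i).support} := by
      ext v
      simp [hW]
    rw [this]
    exact Set.finite_iUnion fun i => List.finite_toSet _
  have : Finite W := hWf
  have hmem : ∀ i, ∀ v ∈ (p i).support, v ∈ W := fun i v hv => ⟨i, hv⟩
  set A' : Set W := {v | (v : V) ∈ A} with hA'
  set B' : Set W := {v | (v : V) ∈ B} with hB'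
  have hlk : Lk (G.induce W) A' B' K := by
    refine menger (G.induce W) A' B' K fun S hS => ?_
    have h1 : ∀ i : Fin k, ∃ v ∈ S, (v : V) ∈ (p i).support := by
      intro i
      obtain ⟨v, hv, hvS⟩ := hS ⟨x i, hmem i _ (p i).start_mem_support⟩ (hx i)
        ⟨y i, hmem i _ (p i).end_mem_support⟩ (hy i) ((p i).induce W (hmem i))
      refine ⟨v, hvS, ?_⟩
      have h2 := List.mem_map_of_mem (f := Subtype.val) hv
      rw [SimpleGraph.Walk.support_induce] at h2
      simpa using h2
    have h2 : k ≤ 4 * S.card := by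
      calc k = (univ : Finset (Fin k)).card := by simp
        _ ≤ (S.biUnion fun v => univ.filter (fun i : Fin k => (v : V) ∈ (p i).support)).card := by
            refine card_le_card fun i _ => ?_
            obtain ⟨v, hv, hvi⟩ := h1 i
            exact mem_biUnion.2 ⟨v, hv, mem_filter.2 ⟨mem_univ _, hvi⟩⟩
        _ ≤ S.card * 4 := card_biUnion_le_card_mul _ _ _ fun v _ => hm v
        _ = 4 * S.card := mul_comm _ _
    omega
  obtain ⟨x', y', q, hx', hy', hq⟩ := hlk
  let f : G.induce W →g G := (SimpleGraph.Embedding.induce W).toHom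
  refine ⟨fun i => f (x' i), fun i => f (y' i), fun i => (q i).map f, hx', hy', ?_⟩
  intro i j hij v hv hv'
  have hv0 : v ∈ ((q i).map f).support := hv
  have hv0' : v ∈ ((q j).map f).support := hv'
  rw [SimpleGraph.Walk.support_map, List.mem_map] at hv0 hv0'
  obtain ⟨v1, hv1, e1⟩ := hv0
  obtain ⟨v2, hv2, e2⟩ := hv0'
  have e3 : v1 = v2 := Subtype.ext (e1.trans e2.symm)
  subst e3
  exact hq i j hij v1 hv1 hv2

end FKC
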