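import Pool.Agent.Lib.MP_216314_pr.J.JLink
import Pool.Agent.Lib.MP_216314_pr.Cy.CyF
import Pool.Agent.Lib.MP_25e40f_pr.A.BK

/-!
# Separate crossings of an annulus by a sequence of vertices occur disjointly

`occ_of_seq`: a sequence of vertices (consecutive ones equal or joined by an open edge) which visits no vertex more than `4` times; `k` disjoint
intervals of time in each of which it goes from the ball of radius `a` around `u` to distance `b`. Then `k / 4` crossings of the annulus `AA u a b`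
occur disjointly.
-/

set_option autoImplicit false

noncomputable section

namespace FKC

open Finset FKI FKP Pool.Agent.Lib.MP_426cf1_co

theorem walk_of_seq {V : Type*} (G : SimpleGraph V) (f : ℕ → V) {s e : ℕ} (hse : s ≤ e)
    (h : ∀ m, s ≤ m → m < e → f m = f (m + 1) ∨ G.Adj (f m) (f (m + 1))) :
    ∃ p : G.Walk (f s) (f e), ∀ v ∈ p.support, ∃ m, s ≤ m ∧ m ≤ e ∧ f m = v := by
  induction e, hse using Nat.le_induction with
  | base =>
    refine ⟨SimpleGraph.Walk.nil, fun v hv => ⟨s, le_rfl, le_rfl, ?_⟩⟩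
    rw [SimpleGraph.Walk.support_nil, List.mem_singleton] at hv
    exact hv.symm
  | succ e hse ih =>
    obtain ⟨p, hp⟩ := ih fun m h1 h2 => h m h1 (by omega)
    rcases h e hse (by omega) with h1 | h1
    · refine ⟨p.copy rfl h1, fun v hv => ?_⟩
      rw [SimpleGraph.Walk.support_copy] at hv
      obtain ⟨m, h2, h3, h4⟩ := hp v hv
      exact ⟨m, h2, by omega, h4⟩
    · refine ⟨p.concat h1, fun v hv => ?_⟩
      rw [SimpleGraph.Walk.support_concat, List.mem_append, List.mem_singleton] at hv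
      rcases hv with hv | hv
      · obtain ⟨m, h2, h3, h4⟩ := hp v hv
        exact ⟨m, h2, by omega, h4⟩
      · exact ⟨e + 1, by omega, le_rfl, hv.symm⟩

theorem gr_adj_iff {ω : Finset Edge} {v w : V} :
    (gr ω).Adj v w ↔ v ≠ w ∧ ∃ e ∈ ω, (ea e = v ∧ eb e = w) ∨ (ea e = w ∧ eb e = v) := by
  unfold gr
  rw [SimpleGraph.fromRel_adj]
  constructor
  · rintro ⟨h, ⟨e, he, h1⟩ | ⟨e, he, h1⟩⟩
    · exact ⟨h, e, he, Or.inl h1⟩
    · exact ⟨h, e, he, Or.inr h1⟩
  · rintro ⟨h, e, he, h1 | h1⟩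
    · exact ⟨h, Or.inl ⟨e, he, h1⟩⟩
    · exact ⟨h, Or.inr ⟨e, he, h1⟩⟩

theorem reach_in {ω : Finset Edge} {v w : V} (q : (gr ω).Walk v w) :
    (gr (ω.filter fun e => ea e ∈ q.support ∧ eb e ∈ q.support)).Reachable v w := by
  refine ⟨q.transfer _ fun e he => ?_⟩
  induction e using Sym2.ind with
  | _ x y =>
    have h1 := q.adj_of_mem_edges he
    have h2 := q.fst_mem_support_of_mem_edges he
    have h3 := q.snd_mem_support_of_mem_edges he
    rw [SimpleGraph.mem_edgeSet, gr_adj_iff]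
    obtain ⟨h4, e, he', h5⟩ := gr_adj_iff.1 h1
    refine ⟨h4, e, mem_filter.2 ⟨he', ?_⟩, h5⟩
    rcases h5 with ⟨h6, h7⟩ | ⟨h6, h7⟩
    · rw [h6, h7]
      exact ⟨h2, h3⟩
    · rw [h6, h7]
      exact ⟨h3, h2⟩

theorem occ_replicate {A : Finset Edge → Prop} {K : ℕ} {ω : Finset Edge} (E : Fin K → Finset Edge)
    (hE : ∀ i, E i ⊆ ω) (hd : ∀ i j, i ≠ j → Disjoint (E i) (E j)) (hA : ∀ i, A (E i)) :
    IPC.Occ (List.replicate K A) ω := by
  refine IPC.Occ_of_witness _ ω ((List.finRange K).map E) ?_ ?_ ?_ ?_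
  · rw [List.length_map, List.length_finRange, List.length_replicate]
  · intro w hw
    obtain ⟨i, -, rfl⟩ := List.mem_map.1 hw
    exact hE i
  · rw [List.pairwise_map]
    exact (List.nodup_finRange K).imp fun {i j} hij => hd i j hij
  · rw [List.forall₂_iff_get]
    refine ⟨by rw [List.length_map, List.length_finRange, List.length_replicate], ?_⟩
    intro i h1 h2
    simp only [List.get_eq_getElem, List.getElem_replicate, List.getElem_map]
    exact hA _

theorem occ_of_link {ω : Finset Edge} {u : V} {a b : ℕ} (hab : a < b) {K : ℕ}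
    (h : Lk (gr ω) {v | sd u v ≤ a} {v | (b : ℤ) ≤ sd u v} K) :
    IPC.Occ (List.replicate K (AA u a b)) ω := by
  obtain ⟨x, y, q, hx, hy, hq⟩ := h
  refine occ_replicate (fun i => ω.filter fun e => ea e ∈ (q i).support ∧ eb e ∈ (q i).support)
    (fun i => filter_subset _ _) (fun i j hij => ?_)
    (fun i => AA_of_reach hab (hx i) (hy i) (reach_in (q i)))
  rw [Finset.disjoint_left]
  intro e he he'
  exact hq i j hij _ (mem_filter.1 he).2.1 (mem_filter.1 he').2.1

theorem occ_of_seq {ω : Finset Edge} {f : ℕ → V} {u : V} {a b : ℕ} (hab : a < b) {k K : ℕ}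
    (hK : 4 * K ≤ k) (s e : Fin k → ℕ) (hse : ∀ i, s i ≤ e i) (hd : ∀ i j, i < j → e i < s j)
    (hstep : ∀ i m, s i ≤ m → m < e i → f m = f (m + 1) ∨ (gr ω).Adj (f m) (f (m + 1)))
    (hs : ∀ i, sd u (f (s i)) ≤ a) (he : ∀ i, (b : ℤ) ≤ sd u (f (e i))) (T : ℕ)
    (hT : ∀ i, e i ≤ T) (hm : ∀ v, ((range (T + 1)).filter (fun m => f m = v)).card ≤ 4) :
    IPC.Occ (List.replicate K (AA u a b)) ω := by
  classical
  choose p hp using fun i => walk_of_seq (gr ω) f (hse i) (hstep i)
  refine occ_of_link hab (pieces_link (gr ω) _ _ hK _ _ p hs he fun v => ?_)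
  refine le_trans ?_ (hm v)
  have hch : ∀ i : Fin k, ∃ m, v ∈ (p i).support → s i ≤ m ∧ m ≤ e i ∧ f m = v := by
    intro i
    by_cases h : v ∈ (p i).support
    · obtain ⟨m, h1⟩ := hp i v h
      exact ⟨m, fun _ => h1⟩
    · exact ⟨0, fun h1 => absurd h1 h⟩
  choose g hg using hch
  refine card_le_card_of_injOn g (fun i hi => ?_) (fun i hi j hj hij => ?_)
  · have h1 := hg i (by simpa using hi)
    exact mem_filter.2 ⟨mem_range.2 (by have := hT i; omega), h1.2.2⟩
  · have h1 := hg i (by simpa using hi)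
    have h2 := hg j (by simpa using hj)
    rcases lt_trichotomy i j with h | h | h
    · have := hd i j h
      omega
    · exact h
    · have := hd j i h
      omega

end FKC
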